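import Pool.Agent.N672.DN.NetDef
import Pool.Agent.N672.DN.Main

/-!
# Average-type lower bound for the discrepancy of digital nets

Let `q` be a prime, `d ≥ 2`, `N = q ^ m`.  For a tuple `C` of `d` matrices of size `m` over `Z_q` and a
digital shift `s` let `net C s` be the digital net generated by `C` and shifted by `s`
(`s = 0` gives the digital net itself).  The theorem: there is `B > 0`, depending only on `d` and `q`,
such that for all `m ≥ 2` and all `0 < δ < 1` at least `(1 - δ) # M_d(m)` of the tuples `C` satisfy
`D_N ≥ D_N^* ≥ δ B (log N)^(d-1) log log N / N`, for all digital shifts `s` at the same time.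

Outline of the proof (everything is elementary).
* The Fourier coefficients of the local discrepancy at the grid points with respect to the characters
  of `(Z_q^m)^d` are sums over the dual space `K(C)` of products of an explicit kernel `kap`, which
  couples two frequencies only when they differ in at most one digit (files `Ker`, `Fou`).
* If `K(C)` has no sparse vectors, few dual vectors whose top digits in the first coordinate are at
  different places can be tested with one Riesz product, and many dual vectors of one size can be
  tested with the inequality of Bessel (`Riesz`, `Bes`).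
* The events `h ∈ K(C)` are pairwise independent for vectors normalised by top digit one, so that
  the second moment method finds such dual vectors, of the required total weight (`Cnt`, `Sel`,
  `Reg`, `Reg2`); `Par`, `Par2`, `Main` choose the parameters.
-/

namespace Pool.Agent.Results.MP_7c2179_nt.AverageLowerBound

open Pool.N672.DN

/-- For every `d ≥ 2` and every prime `q` there is `B > 0` such that for all `m ≥ 2` and `0 < δ < 1`
at least `(1 - δ) # M_d(m)` of the `d`-tuples `C` of `m × m` matrices over `Z_q` satisfy, for all
digital shifts `s`, `δ B Φ_d(N) ≤ D_N^* ≤ D_N`, where `N = q ^ m` and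
`Φ_d(N) = (log N)^(d-1) log log N / N`. -/
theorem result (d : ℕ) (hd : 2 ≤ d) (q : ℕ) (hq : q.Prime) :
    ∃ B : ℝ, 0 < B ∧ ∀ m : ℕ, 2 ≤ m → ∀ δ : ℝ, 0 < δ → δ < 1 →
      (1 - δ) * (Nat.card (Fin d → Matrix (Fin m) (Fin m) (ZMod q)) : ℝ) ≤
        (Nat.card {C : Fin d → Matrix (Fin m) (Fin m) (ZMod q) //
          ∀ s : Fin d → Fin m → ZMod q,
            δ * B * Phi d (q ^ m) ≤ starDisc (net C s) ∧
              starDisc (net C s) ≤ disc (net C s)} : ℝ) := by
  obtain ⟨f, rfl⟩ : ∃ f, d = f + 2 := ⟨d - 2, by omega⟩
  exact main f q hq

end Pool.Agent.Results.MP_7c2179_nt.AverageLowerBound
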